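import Pool.Agent.Helper72.TL.Stmts
import Pool.Agent.Helper89.LN.EB

/-!
# Row EN: linear negative upper bound of the energy for well separated nuclei
-/

set_option autoImplicit false

namespace Pool.Agent.Helper72.TL

open MeasureTheory Filter
open Pool.Agent.Helper95.PW Pool.Agent.Helper95.LN
open Pool.Agent.Helper89.LN (nr_eq nr_nonneg nr_comm nr_tri half_sum Jn mn mn_lt Jm_inj sum_J
  pd_tr tsupport_tr kap_ne)

/-! ### the orbitals -/

/-- the scale of the orbital of the electron `k` -/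
noncomputable def sc {M : ℕ} (A L : ℝ) (Z : Fin M → ℕ) (k : Fin (∑ j, Z j)) : ℝ :=
  if mn Z k = 0 then A else L * 4 ^ mn Z k

/-- the orbital of the electron `k` -/
noncomputable def fk {M : ℕ} (A L : ℝ) (X : Fin M → R3) (Z : Fin M → ℕ) (k : Fin (∑ j, Z j))
    (y : R3) : ℝ := orb (sc A L Z k) (y - X (Jn Z k))

section
variable {M : ℕ} (A L d : ℝ) (hA : 0 < A) (hL : A ≤ L) (X : Fin M → R3) (Z : Fin M → ℕ)

include hA hL

lemma sc_pos (k : Fin (∑ j, Z j)) : 0 < sc A L Z k := by
  have hL0 : 0 < L := lt_of_lt_of_le hA hL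
  unfold sc
  split_ifs <;> positivity

lemma sc_le (N : ℕ) (hd : 2 * (L * 4 ^ N) ≤ d) (k : Fin (∑ j, Z j)) (h : mn Z k ≤ N) :
    sc A L Z k ≤ d / 2 := by
  have hL0 : 0 < L := lt_of_lt_of_le hA hL
  unfold sc
  split_ifs with h0
  · have h4 : (1 : ℝ) ≤ 4 ^ N := one_le_pow₀ (by norm_num)
    nlinarith
  · have h4 : (4 : ℝ) ^ mn Z k ≤ 4 ^ N := pow_le_pow_right₀ (by norm_num) h
    nlinarith

lemma sc_lt (k l : Fin (∑ j, Z j)) (h : mn Z k < mn Z l) : sc A L Z k ≤ sc A L Z l / 4 := by
  have hL0 : 0 < L := lt_of_lt_of_le hA hL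
  unfold sc
  rw [if_neg (show ¬ mn Z l = 0 by omega)]
  split_ifs with h0
  · have h4 : (4 : ℝ) ^ 1 ≤ 4 ^ mn Z l := pow_le_pow_right₀ (by norm_num) (by omega)
    nlinarith
  · have h4 : (4 : ℝ) ^ (mn Z k + 1) ≤ 4 ^ mn Z l := pow_le_pow_right₀ (by norm_num) h
    rw [pow_succ] at h4
    nlinarith

lemma sc_big (k : Fin (∑ j, Z j)) (h : mn Z k ≠ 0) : 4 * L ≤ sc A L Z k := by
  have hL0 : 0 < L := lt_of_lt_of_le hA hL
  unfold sc
  rw [if_neg h]
  have h4 : (4 : ℝ) ^ 1 ≤ 4 ^ mn Z k := pow_le_pow_right₀ (by norm_num) (by omega)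
  nlinarith

lemma fk_disj (N : ℕ) (hd : 2 * (L * 4 ^ N) ≤ d) (hmN : ∀ k, mn Z k ≤ N)
    (C : ℝ) (h : ∀ a : ℝ, 0 < a → ContDiff ℝ (⊤ : ℕ∞) (orb a) ∧
    HasCompactSupport (orb a) ∧ (∀ y, y ∈ tsupport (orb a) → a / 2 ≤ nr y ∧ nr y ≤ a) ∧
    (∀ y, orb a y ^ 2 = et a y / kap) ∧ ∫ y, orb a y ^ 2 = 1 ∧
    ∑ i, ∫ y, pd i (orb a) y ^ 2 ≤ C / a ^ 2) (hX : Sep X d) (k l : Fin (∑ j, Z j)) (y : R3)
    (hk : y ∈ tsupport (fk A L X Z k)) (hl : y ∈ tsupport (fk A L X Z l)) : k = l := by
  have k1 := (h _ (sc_pos A L hA hL Z k)).2.2.1 _ (tsupport_tr (orb (sc A L Z k)) _ _ hk)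
  have l1 := (h _ (sc_pos A L hA hL Z l)).2.2.1 _ (tsupport_tr (orb (sc A L Z l)) _ _ hl)
  have pk := sc_pos A L hA hL Z k
  have pl := sc_pos A L hA hL Z l
  have lk := sc_le A L d hA hL Z N hd k (hmN k)
  have ll := sc_le A L d hA hL Z N hd l (hmN l)
  by_cases hJ : Jn Z k = Jn Z l
  · apply Jm_inj Z k l hJ
    rw [hJ] at k1
    rcases lt_trichotomy (mn Z k) (mn Z l) with hm | hm | hm
    · have := sc_lt A L hA hL Z k l hm
      linarith [k1.2, l1.1]
    · exact hm
    · have := sc_lt A L hA hL Z l k hm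
      linarith [l1.2, k1.1]
  · exfalso
    have h4 := hX _ _ hJ
    have h5 := nr_tri y (X (Jn Z k)) (X (Jn Z l))
    linarith [k1.2, l1.2]

end

/-- sum over the first electrons of the atoms -/
lemma sum_first {M : ℕ} (Z : Fin M → ℕ) (hZ : ∀ j, 1 ≤ Z j) (c : ℝ) :
    ∑ k, (if mn Z k = 0 then c else 0) = M * c := by
  unfold mn
  rw [Equiv.sum_comp finSigmaFinEquiv.symm
    (fun p : (j : Fin M) × Fin (Z j) => if (p.2 : ℕ) = 0 then c else 0), Fintype.sum_sigma]
  have : ∀ j : Fin M, ∑ m : Fin (Z j), (if (m : ℕ) = 0 then c else 0) = c := by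
    intro j
    have h1 : ∀ m : Fin (Z j), (if (m : ℕ) = 0 then c else 0) =
        if m = ⟨0, hZ j⟩ then c else 0 := by
      intro m
      have : ((m : ℕ) = 0) ↔ m = ⟨0, hZ j⟩ := by
        rw [Fin.ext_iff]
      simp only [this]
    rw [Finset.sum_congr rfl fun m _ => h1 m, Finset.sum_ite_eq', if_pos (Finset.mem_univ _)]
  rw [Finset.sum_congr rfl fun j _ => this j]
  simp

theorem EN (h1 : ST_TRE) (h2 : ST_ORB) (h3 : ST_PT1) (h4 : ST_PT2) : ST_EN := by
  have hkap := kap_ne h2
  obtain ⟨C0, hC0, ho⟩ := h2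
  intro z hz
  have hz0 : 0 < z := lt_of_lt_of_le one_pos hz
  set N : ℕ := ⌊z⌋₊ with hN
  obtain ⟨A, hA⟩ : ∃ A : ℝ, A = 2 * C0 := ⟨_, rfl⟩
  have hA0 : 0 < A := by rw [hA]; positivity
  -- the second length
  obtain ⟨L, hLA, hL1, hLs⟩ : ∃ L : ℝ, A ≤ L ∧ 1 ≤ L ∧ (C0 + z) / L ≤ 1 / (4 * A * z) := by
    refine ⟨max (max A 1) ((C0 + z) * (4 * A * z)), ?_, ?_, ?_⟩
    · exact (le_max_left _ _).trans (le_max_left _ _)
    · exact (le_max_right _ _).trans (le_max_left _ _)
    · have hp : 0 < max (max A 1) ((C0 + z) * (4 * A * z)) :=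
        lt_of_lt_of_le hA0 ((le_max_left _ _).trans (le_max_left _ _))
      rw [div_le_div_iff₀ hp (by positivity), one_mul]
      exact le_max_right _ _
  have hL0 : 0 < L := lt_of_lt_of_le one_pos hL1
  refine ⟨2 * (L * 4 ^ N), 1 / (4 * A * z), by positivity, by positivity, ?_⟩
  intro d n M X Z E hd hX hn hZ1 hZ hE
  subst hn
  have hd0 : 0 < d := lt_of_lt_of_le (by positivity) hd
  have hZN : ∀ j, Z j ≤ N := fun j => Nat.le_floor (hZ j)
  have hmN : ∀ k, mn Z k ≤ N := fun k => ((mn_lt Z k).trans_le (hZN _)).le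
  obtain ⟨ψ, hs, ha, hp, hk, hpr, hon⟩ := h1 (∑ j, Z j) (fk A L X Z)
    (fun l => (ho _ (sc_pos A L hA0 hLA Z l)).1.comp (contDiff_id.sub contDiff_const))
    (fun l => (ho _ (sc_pos A L hA0 hLA Z l)).2.1.comp_homeomorph
      (Homeomorph.subRight (X (Jn Z l))))
    (fun i j y hi hj => fk_disj A L d hA0 hLA X Z N hd hmN C0 ho hX i j y hi hj)
    (fun l => by
      have := (ho _ (sc_pos A L hA0 hLA Z l)).2.2.2.2.1
      rw [← integral_sub_right_eq_self _ (X (Jn Z l))] at this
      exact this)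
  have hE1 := hE ψ hs ha
  unfold QM at hE1
  rw [hk, hpr, hon M X (fun j => (Z j : ℝ))] at hE1
  rw [← mul_add, ← mul_sub, mul_comm E] at hE1
  have hE2 := le_of_mul_le_mul_left hE1 hp
  -- squares of the orbitals
  have hf : ∀ k y, fk A L X Z k y ^ 2 = et (sc A L Z k) (y - X (Jn Z k)) / kap := fun k y =>
    (ho _ (sc_pos A L hA0 hLA Z k)).2.2.2.1 _
  -- kinetic energy
  have hkin : ∑ l, ∑ i, ∫ y, pd i (fk A L X Z l) y ^ 2 ≤
      ((∑ j, Z j : ℕ) : ℝ) * (C0 / L) + M * (1 / (2 * A)) := by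
    have : ∀ l, ∑ i, ∫ y, pd i (fk A L X Z l) y ^ 2 ≤
        C0 / L + if mn Z l = 0 then 1 / (2 * A) else 0 := by
      intro l
      have e1 : ∑ i, ∫ y, pd i (fk A L X Z l) y ^ 2 =
          ∑ i, ∫ y, pd i (orb (sc A L Z l)) y ^ 2 := by
        refine Finset.sum_congr rfl fun i _ => ?_
        rw [← integral_sub_right_eq_self (fun y => pd i (orb (sc A L Z l)) y ^ 2) (X (Jn Z l))]
        refine integral_congr_ae (Eventually.of_forall fun y => ?_)
        show pd i (fun w => orb (sc A L Z l) (w - X (Jn Z l))) y ^ 2 = _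
        rw [pd_tr]
      rw [e1]
      refine ((ho _ (sc_pos A L hA0 hLA Z l)).2.2.2.2.2).trans ?_
      by_cases h0 : mn Z l = 0
      · rw [if_pos h0]
        have e2 : sc A L Z l = A := by unfold sc; rw [if_pos h0]
        rw [e2]
        have e3 : C0 / A ^ 2 = 1 / (2 * A) := by
          rw [hA]; field_simp
        rw [e3]
        have : 0 ≤ C0 / L := by positivity
        linarith
      · rw [if_neg h0, add_zero]
        have h5 := sc_big A L hA0 hLA Z l h0
        refine div_le_div_of_nonneg_left hC0.le hL0 ?_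
        nlinarith
    calc ∑ l, ∑ i, ∫ y, pd i (fk A L X Z l) y ^ 2
        ≤ ∑ l : Fin (∑ j, Z j), (C0 / L + if mn Z l = 0 then 1 / (2 * A) else 0) :=
          Finset.sum_le_sum fun l _ => this l
      _ = _ := by
        rw [Finset.sum_add_distrib, sum_first Z hZ1]
        simp
  -- the interaction of the atoms
  set T : Fin M → Fin M → ℝ := fun i j => if i = j then 0 else 1 / nr (X i - X j) with hT
  have hTs : ∀ i j, T i j = T j i := by
    intro i j
    simp only [hT]
    by_cases h : i = j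
    · rw [if_pos h, if_pos h.symm]
    · rw [if_neg h, if_neg (Ne.symm h), nr_comm]
  -- nuclei
  have hnuc : 2 * nucR X (fun j => (Z j : ℝ)) = ∑ i, ∑ j, (Z i : ℝ) * (Z j * T i j) := by
    unfold nucR
    rw [← half_sum (fun i j => (Z i : ℝ) * (Z j * T i j))
      (fun i j => by rw [hTs i j]; ring) (fun i => by simp [hT])]
    congr 1
    refine Finset.sum_congr rfl fun i _ => Finset.sum_congr rfl fun j _ => ?_
    by_cases h : i < j
    · rw [if_pos h, if_pos h]
      simp only [hT]
      rw [if_neg h.ne]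
      ring
    · rw [if_neg h, if_neg h]
  -- attraction
  have hone : 2 * nucR X (fun j => (Z j : ℝ)) + M * (1 / A) ≤
      ∑ l, ∑ j, (Z j : ℝ) * ∫ y, fk A L X Z l y ^ 2 / nr (y - X j) := by
    have e1 : 2 * nucR X (fun j => (Z j : ℝ)) + M * (1 / A) =
        ∑ l, ((∑ j, (Z j : ℝ) * T (Jn Z l) j) + if mn Z l = 0 then 1 / A else 0) := by
      rw [hnuc, Finset.sum_add_distrib, sum_first Z hZ1,
        sum_J Z (fun i => ∑ j, (Z j : ℝ) * T i j)]
      congr 1
      refine Finset.sum_congr rfl fun i _ => ?_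
      rw [Finset.mul_sum]
    rw [e1]
    refine Finset.sum_le_sum fun l _ => ?_
    have e4 : (∑ j, (Z j : ℝ) * T (Jn Z l) j) + (if mn Z l = 0 then 1 / A else 0) =
        ∑ j, ((Z j : ℝ) * T (Jn Z l) j +
          if Jn Z l = j then (if mn Z l = 0 then 1 / A else 0) else 0) := by
      rw [Finset.sum_add_distrib, Finset.sum_ite_eq, if_pos (Finset.mem_univ _)]
    rw [e4]
    refine Finset.sum_le_sum fun j _ => ?_
    simp only [hT]
    by_cases h : Jn Z l = j
    · rw [if_pos h, if_pos h, mul_zero, zero_add]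
      have hnn : 0 ≤ ∫ y, fk A L X Z l y ^ 2 / nr (y - X j) :=
        integral_nonneg fun y => div_nonneg (sq_nonneg _) (nr_nonneg _)
      by_cases h0 : mn Z l = 0
      · rw [if_pos h0]
        have e2 : sc A L Z l = A := by unfold sc; rw [if_pos h0]
        have hsup : ∀ y, fk A L X Z l y ≠ 0 → A / 2 ≤ nr (y - X j) ∧ nr (y - X j) ≤ A := by
          intro y hy
          have h6 : y ∈ tsupport (fk A L X Z l) := subset_tsupport _ hy
          have h7 := (ho _ (sc_pos A L hA0 hLA Z l)).2.2.1 _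
            (tsupport_tr (orb (sc A L Z l)) _ _ h6)
          rw [e2, h] at h7
          exact h7
        have hcd : ContDiff ℝ (⊤ : ℕ∞) (fk A L X Z l) :=
          (ho _ (sc_pos A L hA0 hLA Z l)).1.comp (contDiff_id.sub contDiff_const)
        have hcs : HasCompactSupport (fk A L X Z l) :=
          (ho _ (sc_pos A L hA0 hLA Z l)).2.1.comp_homeomorph
            (Homeomorph.subRight (X (Jn Z l)))
        have hi1 : Integrable (fun y => fk A L X Z l y ^ 2) := by
          have hc : Continuous (fun y => fk A L X Z l y ^ 2) := hcd.continuous.pow 2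
          refine hc.integrable_of_hasCompactSupport ?_
          have := hcs.comp_left (g := fun t : ℝ => t ^ 2) (by norm_num)
          exact this
        have hi2 : Integrable (fun y => fk A L X Z l y ^ 2 / nr (y - X j)) := by
          have hm : AEStronglyMeasurable (fun y => fk A L X Z l y ^ 2 / nr (y - X j)) := by
            refine Measurable.aestronglyMeasurable ?_
            refine (hcd.continuous.measurable.pow_const 2).div ?_
            have : Continuous fun y : R3 => nr (y - X j) := by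
              unfold nr
              fun_prop
            exact this.measurable
          refine (hi1.const_mul (2 / A)).mono' hm (Eventually.of_forall fun y => ?_)
          rw [Real.norm_eq_abs, abs_of_nonneg (div_nonneg (sq_nonneg _) (nr_nonneg _))]
          by_cases hy : fk A L X Z l y = 0
          · rw [hy]; simp
          · have h8 := hsup y hy
            have h9 : 0 < nr (y - X j) := lt_of_lt_of_le (by positivity) h8.1
            rw [div_le_iff₀ h9]
            have h10 : 1 ≤ 2 / A * nr (y - X j) := by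
              have := mul_le_mul_of_nonneg_left h8.1 (show 0 ≤ 2 / A by positivity)
              have e : 2 / A * (A / 2) = 1 := by field_simp
              linarith
            nlinarith [sq_nonneg (fk A L X Z l y)]
        have h5 : 1 / A ≤ ∫ y, fk A L X Z l y ^ 2 / nr (y - X j) := by
          have h6 : ∫ y, fk A L X Z l y ^ 2 = 1 := by
            have := (ho _ (sc_pos A L hA0 hLA Z l)).2.2.2.2.1
            rw [← integral_sub_right_eq_self _ (X (Jn Z l))] at this
            exact this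
          have h7 : 1 / A = ∫ y, fk A L X Z l y ^ 2 / A := by
            rw [integral_div, h6]
          rw [h7]
          refine integral_mono (hi1.div_const A) hi2 fun y => ?_
          show fk A L X Z l y ^ 2 / A ≤ fk A L X Z l y ^ 2 / nr (y - X j)
          by_cases hy : fk A L X Z l y = 0
          · rw [hy]; simp
          · have h8 := hsup y hy
            have h9 : 0 < nr (y - X j) := lt_of_lt_of_le (by positivity) h8.1
            exact div_le_div_of_nonneg_left (sq_nonneg _) h9 h8.2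
        have h6 : (1 : ℝ) ≤ Z j := by exact_mod_cast hZ1 j
        nlinarith
      · rw [if_neg h0]
        exact mul_nonneg (Nat.cast_nonneg _) hnn
    · rw [if_neg h, if_neg h, add_zero]
      refine mul_le_mul_of_nonneg_left ?_ (Nat.cast_nonneg _)
      have h5 := hX _ _ h
      have h6 := h3 (sc A L Z l) (X j) (X (Jn Z l)) (sc_pos A L hA0 hLA Z l) (by
        rw [nr_comm]
        have := sc_le A L d hA0 hLA Z N hd l (hmN l)
        linarith)
      have e2 : ∫ y, fk A L X Z l y ^ 2 / nr (y - X j) =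
          (∫ y, et (sc A L Z l) (y - X (Jn Z l)) / nr (y - X j)) / kap := by
        rw [← integral_div]
        refine integral_congr_ae (Eventually.of_forall fun y => ?_)
        simp only [hf]
        rw [div_right_comm]
      rw [e2, h6, nr_comm, div_right_comm, div_self hkap]
  -- repulsion
  set B : ℝ := 1 / L with hB
  have hB0 : 0 < B := by positivity
  have hpair : (∑ k, ∑ l, if k < l then ∫ x, ∫ y, fk A L X Z k x ^ 2 * fk A L X Z l y ^ 2 /
      nr (x - y) else 0) ≤ nucR X (fun j => (Z j : ℝ)) + ((∑ j, Z j : ℕ) : ℝ) * (z * B) := by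
    have e0 : ∀ k l, (∫ x, ∫ y, fk A L X Z k x ^ 2 * fk A L X Z l y ^ 2 / nr (x - y)) =
        (∫ x, ∫ y, et (sc A L Z k) (x - X (Jn Z k)) * et (sc A L Z l) (y - X (Jn Z l)) /
          nr (x - y)) / kap ^ 2 := by
      intro k l
      rw [← integral_div]
      refine integral_congr_ae (Eventually.of_forall fun x => ?_)
      simp only
      rw [← integral_div]
      refine integral_congr_ae (Eventually.of_forall fun y => ?_)
      simp only [hf]
      rw [div_mul_div_comm, div_right_comm, sq kap]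
    have e1 : ∀ k l, k < l → (∫ x, ∫ y, fk A L X Z k x ^ 2 * fk A L X Z l y ^ 2 / nr (x - y)) ≤
        T (Jn Z k) (Jn Z l) + if Jn Z k = Jn Z l then B else 0 := by
      intro k l hkl
      have hk2 : 0 < kap ^ 2 := by positivity
      have pk := sc_pos A L hA0 hLA Z k
      have pl := sc_pos A L hA0 hLA Z l
      have lk := sc_le A L d hA0 hLA Z N hd k (hmN k)
      have ll := sc_le A L d hA0 hLA Z N hd l (hmN l)
      have hB' : 4 / (4 * L) = B := by rw [hB]; field_simp
      rw [e0]
      simp only [hT]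
      by_cases h : Jn Z k = Jn Z l
      · rw [if_pos h, if_pos h, zero_add, div_le_iff₀ hk2, h, mul_comm B]
        have hm : mn Z k ≠ mn Z l := fun hm => hkl.ne (Jm_inj Z k l h hm)
        rcases lt_or_gt_of_ne hm with hm | hm
        · refine ((h4 _ _ (X (Jn Z l)) 0 pl pk).2 (sc_lt A L hA0 hLA Z k l hm)).2.trans ?_
          refine mul_le_mul_of_nonneg_left ?_ hk2.le
          rw [← hB']
          exact div_le_div_of_nonneg_left (by norm_num) (by positivity)
            (sc_big A L hA0 hLA Z l (by omega))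
        · refine ((h4 _ _ (X (Jn Z l)) 0 pk pl).2 (sc_lt A L hA0 hLA Z l k hm)).1.trans ?_
          refine mul_le_mul_of_nonneg_left ?_ hk2.le
          rw [← hB']
          exact div_le_div_of_nonneg_left (by norm_num) (by positivity)
            (sc_big A L hA0 hLA Z k (by omega))
      · rw [if_neg h, if_neg h, add_zero]
        have h5 := hX _ _ h
        rw [(h4 _ _ (X (Jn Z k)) (X (Jn Z l)) pk pl).1 (by linarith), div_right_comm,
          div_self hk2.ne']
    have e2 : (∑ k, ∑ l, if k < l then ∫ x, ∫ y, fk A L X Z k x ^ 2 * fk A L X Z l y ^ 2 /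
        nr (x - y) else 0) ≤ (∑ k, ∑ l, if k < l then T (Jn Z k) (Jn Z l) else 0) +
        ∑ k, ∑ l, if Jn Z k = Jn Z l then B else 0 := by
      rw [← Finset.sum_add_distrib]
      refine Finset.sum_le_sum fun k _ => ?_
      rw [← Finset.sum_add_distrib]
      refine Finset.sum_le_sum fun l _ => ?_
      by_cases h : k < l
      · rw [if_pos h, if_pos h]
        exact e1 k l h
      · rw [if_neg h, if_neg h, zero_add]
        split_ifs
        · exact hB0.le
        · exact le_rfl
    have e3 : (∑ k, ∑ l, if k < l then T (Jn Z k) (Jn Z l) else 0) =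
        nucR X (fun j => (Z j : ℝ)) := by
      have e4 := half_sum (fun k l => T (Jn Z k) (Jn Z l)) (fun k l => hTs _ _)
        (fun k => by simp [hT])
      have e5 : ∑ k, ∑ l, T (Jn Z k) (Jn Z l) = ∑ i, ∑ j, (Z i : ℝ) * (Z j * T i j) := by
        have : ∀ k, ∑ l, T (Jn Z k) (Jn Z l) = ∑ j, (Z j : ℝ) * T (Jn Z k) j := fun k =>
          sum_J Z (fun j => T (Jn Z k) j)
        rw [Finset.sum_congr rfl fun k _ => this k, sum_J Z (fun i => ∑ j, (Z j : ℝ) * T i j)]
        refine Finset.sum_congr rfl fun i _ => ?_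
        rw [Finset.mul_sum]
      rw [e5, ← hnuc] at e4
      linarith
    have e6 : (∑ k, ∑ l, if Jn Z k = Jn Z l then B else 0) ≤
        ((∑ j, Z j : ℕ) : ℝ) * (z * B) := by
      have : ∀ k, (∑ l, if Jn Z k = Jn Z l then B else 0) ≤ z * B := by
        intro k
        rw [sum_J Z (fun j => if Jn Z k = j then B else 0)]
        simp only [mul_ite, mul_zero, Finset.sum_ite_eq, Finset.mem_univ, if_true]
        exact mul_le_mul_of_nonneg_right (hZ _) hB0.le
      calc _ ≤ ∑ k : Fin (∑ j, Z j), z * B := Finset.sum_le_sum fun k _ => this k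
        _ = _ := by simp
    linarith
  have hn0 : (0 : ℝ) ≤ ((∑ j, Z j : ℕ) : ℝ) := Nat.cast_nonneg _
  -- number of nuclei
  have hM : ((∑ j, Z j : ℕ) : ℝ) ≤ M * z := by
    push_cast
    calc ∑ j, (Z j : ℝ) ≤ ∑ j : Fin M, z := Finset.sum_le_sum fun j _ => hZ j
      _ = M * z := by simp
  have hM2 : ((∑ j, Z j : ℕ) : ℝ) * (1 / (2 * A * z)) ≤ M * (1 / (2 * A)) := by
    have e : (M : ℝ) * (1 / (2 * A)) = M * z * (1 / (2 * A * z)) := by field_simp
    rw [e]
    exact mul_le_mul_of_nonneg_right hM (by positivity)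
  have hsm : ((∑ j, Z j : ℕ) : ℝ) * ((C0 + z) / L) ≤
      ((∑ j, Z j : ℕ) : ℝ) * (1 / (4 * A * z)) := mul_le_mul_of_nonneg_left hLs hn0
  have e8 : (C0 + z) / L = C0 / L + z * B := by rw [hB]; ring
  rw [e8] at hsm
  have e9 : (1 : ℝ) / (2 * A * z) = 2 * (1 / (4 * A * z)) := by field_simp; norm_num
  rw [e9] at hM2
  have e10 : (M : ℝ) * (1 / A) = 2 * (M * (1 / (2 * A))) := by field_simp
  rw [e10] at hone
  nlinarith [hE2, hkin, hone, hpair, hn0, hsm, hM2]

end Pool.Agent.Helper72.TL
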