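import Pool.Agent.Helper95.LN.Stmts

/-!
# Total momentum against kinetic energy for well separated nuclei: statements
-/

set_option autoImplicit false

namespace Pool.Agent.Helper72.TL

open MeasureTheory Filter Pool.Agent.Helper95.PW Pool.Agent.Helper95.LN

/-- row EN (TRE, ORB, PT1, PT2): trial state with the orbital `orb A` at every nucleus and the
other electrons on far larger spheres; the energy is at most `-c n` -/
def ST_EN : Prop := ∀ z : ℝ, 1 ≤ z → ∃ D c : ℝ, 0 < D ∧ 0 < c ∧ ∀ (d : ℝ) (n M : ℕ)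
  (X : Fin M → R3) (Z : Fin M → ℕ) (E : ℝ), D ≤ d → Sep X d → ∑ j, Z j = n → (∀ j, 1 ≤ Z j) →
  (∀ j, (Z j : ℝ) ≤ z) → LowM n X (fun j => (Z j : ℝ)) E →
  E + nucR X (fun j => (Z j : ℝ)) ≤ -(c * n)

/-- row ESQ: ES1 with the constant `8 (1 + z) / d` (proof of Helper97/LN/ES1.lean) -/
def ST_ESQ : Prop := ∀ z d : ℝ, 0 ≤ z → 0 < d → ∀ (n M : ℕ)
  (X : Fin M → R3) (Z : Fin M → ℝ) (x : Cf n), Sep X d → Nuc n Z → (∀ j, Z j ≤ z) → Dist X x →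
  1 / 2 * Dn (d / 8) X Z x + Rem (d / 8) x ≤ Vc X Z x + 8 * (1 + z) / d * n +
    z * ∑ k, near1 X d (x k)

/-- row TLO (ESQ, AED, HLOC, QHM, INTM, KK): as TBL with `t` large and `d` large -/
def ST_TLO : Prop := ∀ z c : ℝ, 0 ≤ z → 0 < c → ∃ D c' r : ℝ, 0 < D ∧ 0 < c' ∧ 0 < r ∧
  ∀ (d : ℝ) (n M : ℕ) (X : Fin M → R3) (Z : Fin M → ℝ) (E : ℝ) (u : Wf n), D ≤ d → 1 ≤ n →
  Nuc n Z → (∀ j, Z j ≤ z) → Sep X d → E + nucR X Z ≤ -(c * n) → Sm u →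
  1 / 2 ≤ Pool.Agent.Helper95.PW.sq u → Pool.Agent.Helper95.PW.sq u ≤ 2 → resM X Z E u ≤ r → c' * n ≤ kin u

/-- row TLG (TLO and the approximation rows APXM, LMTM, see Helper39/LN/MTL.lean): lower bound of
the kinetic energy of a ground state -/
def ST_TLG : Prop := ∀ z c : ℝ, 0 ≤ z → 0 < c → ∃ D c' : ℝ, 0 < D ∧ 0 < c' ∧ ∀ (d : ℝ) (n M : ℕ)
  (X : Fin M → R3) (Z : Fin M → ℝ) (E : ℝ) (φ : Wf n) (G : Fin n → Fin 3 → Wf n), D ≤ d → 1 ≤ n →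
  Nuc n Z → (∀ j, Z j ≤ z) → Sep X d → E + nucR X Z ≤ -(c * n) → GroundM n X Z E φ G →
  c' * n ≤ kinG G

end Pool.Agent.Helper72.TL
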